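import Pool.Agent.TH279.MD.Defs

set_option autoImplicit false

open Set Filter Metric MeasureTheory
open Pool.Agent.TH279.MD

namespace Pool.Agent.TH574.J2490

/-- `c ↦ vv d c c j` as a polynomial. -/
noncomputable def PP (d : ℕ) : ℕ → Polynomial ℂ
  | 0 => Polynomial.X
  | j + 1 => (PP d j) ^ d + Polynomial.X

theorem eval_PP (d : ℕ) (c : ℂ) (j : ℕ) : (PP d j).eval c = vv d c c j := by
  induction j with
  | zero => simp [PP, vv_zero]
  | succ j ih => simp [PP, vv_succ, ih]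

theorem monic_PP {d : ℕ} (hd : 2 ≤ d) (j : ℕ) : (PP d j).Monic ∧ (PP d j).natDegree = d ^ j := by
  induction j with
  | zero => simp [PP, Polynomial.monic_X]
  | succ j ih =>
    obtain ⟨h1, h2⟩ := ih
    have h3 : ((PP d j) ^ d).natDegree = d ^ (j + 1) := by
      rw [h1.natDegree_pow, h2, pow_succ, mul_comm]
    have h4 : 2 ≤ d ^ (j + 1) := hd.trans (Nat.le_self_pow (by omega) d)
    have h5 : (Polynomial.X : Polynomial ℂ).degree < ((PP d j) ^ d).degree := by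
      rw [Polynomial.degree_eq_natDegree (h1.pow d).ne_zero, h3, Polynomial.degree_X]
      exact_mod_cast (show 1 < d ^ (j + 1) by omega)
    refine ⟨(h1.pow d).add_of_left h5, ?_⟩
    show ((PP d j) ^ d + Polynomial.X).natDegree = _
    rw [Polynomial.natDegree_add_eq_left_of_degree_lt h5, h3]

theorem nonzero_order {d L k : ℕ} (hd : 2 ≤ d) {ω c₀ : ℂ} {ρ : ℝ} (hρ : 0 < ρ) {v : ℂ → ℂ}
    (hv : DifferentiableOn ℂ v (ball c₀ ρ)) (hv0 : v c₀ = c₀)
    (horb : ∀ c ∈ ball c₀ ρ, Orb d L k ω c (v c)) :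
    ∃ (m : ℕ) (κ ε : ℝ), 0 < κ ∧ 0 < ε ∧ ε ≤ ρ ∧ ∀ c : ℂ, c ≠ c₀ → ‖c - c₀‖ < ε →
      κ * ‖c - c₀‖ ^ m ≤ ‖c - v c‖ ∧ ‖c - v c‖ ≤ 2 * (‖c - c₀‖ * ‖1 - deriv v c‖) := by
  have hva : AnalyticAt ℂ v c₀ := hv.analyticAt (ball_mem_nhds c₀ hρ)
  have hφ : AnalyticAt ℂ (fun c => c - v c) c₀ := analyticAt_id.sub hva
  have hlt : k < L := (horb c₀ (mem_ball_self hρ)).lt
  -- not locally zero
  have hnz : ¬ ∀ᶠ c in nhds c₀, c - v c = 0 := by
    intro h0
    set F : Polynomial ℂ := PP d L - Polynomial.C ω * PP d k with hF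
    have hmem : {c : ℂ | F.IsRoot c} ∈ nhds c₀ := by
      filter_upwards [h0, ball_mem_nhds c₀ hρ] with c hc hcb
      have h1 := (horb c hcb).opp
      have h2 : v c = c := (sub_eq_zero.mp hc).symm
      rw [h2] at h1
      show F.eval c = 0
      rw [hF, Polynomial.eval_sub, Polynomial.eval_mul, Polynomial.eval_C, eval_PP, eval_PP, h1,
        sub_self]
    have hinf : {c : ℂ | F.IsRoot c}.Infinite := infinite_of_mem_nhds c₀ hmem
    have hF0 : F = 0 := Polynomial.eq_zero_of_infinite_isRoot F hinf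
    have h3 : PP d L = Polynomial.C ω * PP d k := sub_eq_zero.mp hF0
    have h4 : (PP d L).natDegree ≤ (PP d k).natDegree := by
      rw [h3]; exact Polynomial.natDegree_C_mul_le _ _
    rw [(monic_PP hd L).2, (monic_PP hd k).2] at h4
    exact absurd h4 (not_le.mpr (Nat.pow_lt_pow_right (by omega) hlt))
  obtain ⟨m, ψ, hψ, hψ0, heq⟩ := hφ.exists_eventuallyEq_pow_smul_nonzero_iff.mpr hnz
  have hm : 1 ≤ m := by
    by_contra hcon
    have h0 : m = 0 := by omega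
    have h1 := heq.self_of_nhds
    rw [h0, pow_zero, one_smul, hv0, sub_self] at h1
    exact hψ0 h1.symm
  have hψc : ContinuousAt ψ c₀ := hψ.continuousAt
  have hψ'c : ContinuousAt (deriv ψ) c₀ := hψ.deriv.continuousAt
  have hp : 0 < ‖ψ c₀‖ := norm_pos_iff.mpr hψ0
  set K : ℝ := ‖deriv ψ c₀‖ + 1 with hK
  have hK0 : 0 < K := by positivity
  have e1 : ∀ᶠ c in nhds c₀, ‖ψ c₀‖ / 2 < ‖ψ c‖ :=
    hψc.norm.eventually (lt_mem_nhds (by linarith))
  have e2 : ∀ᶠ c in nhds c₀, ‖deriv ψ c‖ < K :=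
    hψ'c.norm.eventually (gt_mem_nhds (by rw [hK]; linarith))
  have e3 : ∀ᶠ c in nhds c₀, ∀ᶠ z in nhds c, z - v z = (z - c₀) ^ m • ψ z :=
    heq.eventually_nhds
  have e4 : ∀ᶠ c in nhds c₀, AnalyticAt ℂ ψ c := hψ.eventually_analyticAt
  have e5 : ∀ᶠ c in nhds c₀, c ∈ ball c₀ ρ := ball_mem_nhds c₀ hρ
  have e6 : ∀ᶠ c in nhds c₀, c ∈ ball c₀ (‖ψ c₀‖ / (4 * K)) := ball_mem_nhds c₀ (by positivity)
  have hall := e1.and (e2.and (e3.and (e4.and (e5.and e6))))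
  rw [Metric.eventually_nhds_iff] at hall
  obtain ⟨ε₀, hε₀, hall⟩ := hall
  refine ⟨m, ‖ψ c₀‖ / 2, min ε₀ ρ, by positivity, lt_min hε₀ hρ, min_le_right _ _, ?_⟩
  intro c hne hc
  obtain ⟨g1, g2, g3, g4, g5, g6⟩ := hall (y := c) (by
    rw [dist_eq_norm]; exact hc.trans_le (min_le_left _ _))
  have hval : c - v c = (c - c₀) ^ m * ψ c := by
    have := g3.self_of_nhds
    simpa [smul_eq_mul] using this
  have hnorm : ‖c - v c‖ = ‖c - c₀‖ ^ m * ‖ψ c‖ := by rw [hval, norm_mul, norm_pow]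
  have hcc : 0 < ‖c - c₀‖ := norm_pos_iff.mpr (sub_ne_zero.mpr hne)
  have hψc0 : 0 < ‖ψ c‖ := lt_trans (by positivity) g1
  refine ⟨?_, ?_⟩
  · rw [hnorm, mul_comm]
    exact mul_le_mul_of_nonneg_left g1.le (by positivity)
  · -- the derivative
    have hvd : DifferentiableAt ℂ v c := hv.differentiableAt (isOpen_ball.mem_nhds g5)
    have hd1 : HasDerivAt (fun z => z - v z) (1 - deriv v c) c :=
      (hasDerivAt_id c).sub hvd.hasDerivAt
    have hd2 : HasDerivAt (fun z => (z - c₀) ^ m * ψ z)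
        (((m : ℂ) * (c - c₀) ^ (m - 1)) * ψ c + (c - c₀) ^ m * deriv ψ c) c := by
      have h1 : HasDerivAt (fun z : ℂ => (z - c₀) ^ m) ((m : ℂ) * (c - c₀) ^ (m - 1)) c := by
        have := ((hasDerivAt_id c).sub_const c₀).fun_pow m
        simpa using this
      exact h1.mul g4.differentiableAt.hasDerivAt
    have hd3 : 1 - deriv v c =
        ((m : ℂ) * (c - c₀) ^ (m - 1)) * ψ c + (c - c₀) ^ m * deriv ψ c := by
      have h1 : (fun z => z - v z) =ᶠ[nhds c] (fun z => (z - c₀) ^ m * ψ z) := by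
        filter_upwards [g3] with z hz
        simpa [smul_eq_mul] using hz
      exact hd1.unique (hd2.congr_of_eventuallyEq h1)
    have hd4 : (c - c₀) * (1 - deriv v c) = (m : ℂ) * (c - v c) +
        (c - c₀) * ((c - c₀) ^ m * deriv ψ c) := by
      obtain ⟨n, rfl⟩ : ∃ n, m = n + 1 := ⟨m - 1, by omega⟩
      rw [hd3, hval, Nat.add_sub_cancel, pow_succ]
      ring
    have hsm : ‖(c - c₀) * ((c - c₀) ^ m * deriv ψ c)‖ ≤ ‖c - v c‖ / 2 := by
      rw [norm_mul, norm_mul, norm_pow, hnorm]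
      have h1 : ‖c - c₀‖ ≤ ‖ψ c₀‖ / (4 * K) := by
        rw [← dist_eq_norm]; exact (mem_ball.mp g6).le
      have h2 : ‖c - c₀‖ * ‖deriv ψ c‖ ≤ ‖ψ c‖ / 2 := by
        calc ‖c - c₀‖ * ‖deriv ψ c‖ ≤ (‖ψ c₀‖ / (4 * K)) * K :=
              mul_le_mul h1 g2.le (norm_nonneg _) (by positivity)
          _ = (‖ψ c₀‖ / 2) / 2 := by field_simp; norm_num
          _ ≤ ‖ψ c‖ / 2 := by linarith
      calc ‖c - c₀‖ * (‖c - c₀‖ ^ m * ‖deriv ψ c‖) = ‖c - c₀‖ ^ m * (‖c - c₀‖ * ‖deriv ψ c‖) := by ring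
        _ ≤ ‖c - c₀‖ ^ m * (‖ψ c‖ / 2) := mul_le_mul_of_nonneg_left h2 (by positivity)
        _ = ‖c - c₀‖ ^ m * ‖ψ c‖ / 2 := by ring
    have hmm : ‖c - v c‖ ≤ ‖(m : ℂ) * (c - v c)‖ := by
      rw [norm_mul]
      have : (1 : ℝ) ≤ ‖(m : ℂ)‖ := by
        rw [Complex.norm_natCast]; exact_mod_cast hm
      nlinarith [norm_nonneg (c - v c)]
    have hlow : ‖(m : ℂ) * (c - v c)‖ - ‖(c - c₀) * ((c - c₀) ^ m * deriv ψ c)‖ ≤
        ‖(c - c₀) * (1 - deriv v c)‖ := by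
      rw [hd4]
      have := norm_sub_le ((m : ℂ) * (c - v c) + (c - c₀) * ((c - c₀) ^ m * deriv ψ c))
        ((c - c₀) * ((c - c₀) ^ m * deriv ψ c))
      rw [add_sub_cancel_right] at this
      linarith
    rw [norm_mul (c - c₀) (1 - deriv v c)] at hlow
    linarith

end Pool.Agent.TH574.J2490
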