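import Mathlib
import Pool.Agent.H713R2.AR.LB

set_option autoImplicit false

open Complex Topology Filter Metric MeasureTheory Set Polynomial

namespace Pool.Agent.TH574.J2489

open Pool.Agent.H713R2 Pool.Agent.H712R2 Pool.Agent.H713R2.AR

/-- A holomorphic square root of a nonvanishing holomorphic function on a disc. -/
theorem exists_sqrt {R : ℝ} {T : ℂ → ℂ} (hT : DifferentiableOn ℂ T (ball 0 R)) (hT0 : T 0 = 1)
    (hne : ∀ y ∈ ball (0 : ℂ) R, T y ≠ 0) :
    ∃ s : ℂ → ℂ, DifferentiableOn ℂ s (ball 0 R) ∧ s 0 = 1 ∧ (∀ y ∈ ball (0 : ℂ) R, s y ^ 2 = T y) ∧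
      ∀ y, s y ≠ 0 := by
  by_cases hR : 0 < R
  · have h0 : (0 : ℂ) ∈ ball (0 : ℂ) R := mem_ball_self hR
    obtain ⟨h, hhc, hhe, hh0⟩ := exists_log_star (E := Unit) (A := {q : Unit × ℂ | q.2 ∈ ball (0 : ℂ) R})
      (T := fun q => T q.2) (by
        intro e x hx s hs
        simp only [mem_ofPred_eq, mem_ball_zero_iff, norm_mul, Complex.norm_real, Real.norm_eq_abs,
          abs_of_nonneg hs.1] at hx ⊢
        have h1 := norm_nonneg x
        have h2 := hs.2
        nlinarith)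
      (hT.continuousOn.comp continuous_snd.continuousOn (fun q hq => hq))
      (fun _ _ _ => hT0) (fun q hq => hne q.2 hq)
    refine ⟨fun y => Complex.exp (h ((), y) / 2), ?_, ?_, ?_, fun y => Complex.exp_ne_zero _⟩
    · intro y hy
      apply DifferentiableAt.differentiableWithinAt
      apply differentiableAt_of_pow (N := 2) (Ψ := fun y => Complex.exp (h ((), y) / 2)) (p := T)
        (by norm_num) _ (Complex.exp_ne_zero _)
      · exact hT.differentiableAt (isOpen_ball.mem_nhds hy)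
      · filter_upwards [isOpen_ball.mem_nhds hy] with z hz
        rw [← Complex.exp_nat_mul]
        have : ((2 : ℕ) : ℂ) * (h ((), z) / 2) = h ((), z) := by push_cast; ring
        rw [this]
        exact hhe ((), z) hz
      · have h1 : ContinuousOn (fun z : ℂ => h ((), z)) (ball 0 R) :=
          hhc.comp (by fun_prop) (fun z hz => hz)
        have h2 : ContinuousAt (fun z : ℂ => h ((), z)) y := h1.continuousAt (isOpen_ball.mem_nhds hy)
        exact Complex.continuous_exp.continuousAt.comp (h2.div_const 2)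
    · show Complex.exp (h ((), 0) / 2) = 1
      rw [hh0 () 0 h0]; simp
    · intro y hy
      show Complex.exp (h ((), y) / 2) ^ 2 = T y
      rw [← Complex.exp_nat_mul]
      have : ((2 : ℕ) : ℂ) * (h ((), y) / 2) = h ((), y) := by push_cast; ring
      rw [this]
      exact hhe ((), y) hy
  · have he : ball (0 : ℂ) R = ∅ := ball_eq_empty.mpr (not_lt.mp hR)
    refine ⟨fun _ => 1, differentiableOn_const _, rfl, ?_, fun _ => one_ne_zero⟩
    intro y hy
    rw [he] at hy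
    exact absurd hy (notMem_empty _)

/-- The omitted value gives a nonvanishing function. -/
theorem T_ne {d : ℕ} (hd : 2 ≤ d) {M : ℝ} (hM : 0 < M) {G : ℕ → ℂ × ℂ → ℂ} (hG : IsSeq d G)
    (i J : ℕ) (hiJ : 1 ≤ i + J) {c : ℂ} (hc : BdJ d M (i + J) c) :
    ∀ y ∈ ball (0 : ℂ) (radM d M J), G J (c, y) - P d i c * y ≠ 0 := by
  have hcJ : BdJ d M J c := hc.mono (Nat.le_add_left J i)
  intro y hy h0
  by_cases hy0 : y = 0
  · subst hy0
    rw [(hG.isG J).zero, mul_zero, sub_zero] at h0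
    exact one_ne_zero h0
  · have hyA := mem_AA_of_BdJ hd hM hcJ hy
    have h1 : y⁻¹ * G J (c, y) = P d i c := by
      rw [sub_eq_zero.mp h0]; field_simp
    have h2 := (hG.isG J).conj c y hyA hy0
    rw [h1] at h2
    have h3 : (fc d c)^[J] (P d i c) = P d (i + J) c := by
      unfold P; rw [← Function.iterate_add_apply, Nat.add_comm]
    rw [h3] at h2
    have h4 := hc (i + J) hiJ le_rfl
    rw [h2, norm_pow, norm_inv, inv_pow] at h4
    have h5 : ‖y‖ ^ (d ^ J) < 1 / M := by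
      rw [← radM_pow hd hM J]
      exact pow_lt_pow_left₀ (mem_ball_zero_iff.mp hy) (norm_nonneg _) (pow_ne_zero _ (by omega))
    have h6 : 0 < ‖y‖ ^ (d ^ J) := by have := norm_pos_iff.mpr hy0; positivity
    rw [lt_div_iff₀ hM] at h5
    rw [inv_le_iff_one_le_mul₀ h6] at h4
    linarith

theorem sqrt_level {d : ℕ} (hd : 2 ≤ d) {M M' : ℝ} (hM : 0 < M) (hMM : M < M') (hM3 : 3 ≤ M')
    {γ : ℂ → ℂ} (hγ : DifferentiableOn ℂ γ (ball 0 1)) (i j : ℕ) (hi : 1 ≤ i)
    (hγB : ∀ t ∈ ball (0 : ℂ) 1, BdJ d M (i + j + 1) (γ t)) :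
    ‖deriv (fun t => P d i (γ t)) 0‖ ≤ 2 / Real.pi *
      (volume {u : ℂ | u ^ 2 + P d i (γ 0) ∈ EM d M' (γ 0) (j + 1)}).toReal := by
  obtain ⟨G, hG⟩ := exists_seq hd
  set J : ℕ := j + 1 with hJ
  set R : ℝ := radM d M J with hR
  set R' : ℝ := radM d M' J with hR'
  have hR0 : 0 < R := radM_pos d hM J
  have hM'0 : 0 < M' := hM.trans hMM
  have hR'0 : 0 < R' := radM_pos d hM'0 J
  have hRR : R' < R := radM_lt hd hM hMM J
  have h0 : (0 : ℂ) ∈ ball (0 : ℂ) 1 := mem_ball_self one_pos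
  have hBJ : ∀ t ∈ ball (0 : ℂ) 1, BdJ d M (i + J) (γ t) := fun t ht => by
    have := hγB t ht
    rwa [add_assoc] at this
  have hB : ∀ t ∈ ball (0 : ℂ) 1, BdJ d M J (γ t) := fun t ht => (hBJ t ht).mono (Nat.le_add_left J i)
  set A : ℂ → ℂ := fun t => P d i (γ t) with hA
  have hPd : Differentiable ℂ (P d i) := by
    clear_value A
    clear hA hBJ hi
    induction i with
    | zero => exact differentiable_const _
    | succ i ih =>
      have : P d (i + 1) = fun c => (P d i c) ^ d + c := by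
        funext c; exact P_succ d i c
      rw [this]
      exact ((ih (fun t ht => (hγB t ht).mono (by omega))).pow d).add differentiable_id
  have hAd : DifferentiableOn ℂ A (ball 0 1) := hPd.comp_differentiableOn hγ
  -- the functions
  set g : ℂ → ℂ → ℂ := fun t x => G J (γ t, x) with hg
  have hgE : ∀ t ∈ ball (0 : ℂ) 1, IsExt R (g t) := fun t ht => isExt_seqM hd hM hG J (hB t ht)
  have hTd : ∀ t ∈ ball (0 : ℂ) 1, DifferentiableOn ℂ (fun y => g t y - A t * y) (ball 0 R) :=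
    fun t ht => (hgE t ht).diff.sub (by fun_prop)
  have hex : ∀ t ∈ ball (0 : ℂ) 1, ∃ s : ℂ → ℂ, DifferentiableOn ℂ s (ball 0 R) ∧ s 0 = 1 ∧
      (∀ y ∈ ball (0 : ℂ) R, s y ^ 2 = g t y - A t * y) ∧ ∀ y, s y ≠ 0 := by
    intro t ht
    apply exists_sqrt (hTd t ht)
    · rw [(hgE t ht).zero]; ring
    · exact T_ne hd hM hG i J (by omega) (hBJ t ht)
  choose! s hs1 hs2 hs3 hs4 using hex
  set h : ℂ → ℂ → ℂ := fun t x => s t (x ^ 2) with hh
  have hsq : ∀ r : ℝ, 0 < r → ∀ x : ℂ, x ∈ ball (0 : ℂ) (Real.sqrt r) → x ^ 2 ∈ ball (0 : ℂ) r := by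
    intro r hr x hx
    rw [mem_ball_zero_iff] at hx ⊢
    rw [norm_pow]
    calc ‖x‖ ^ 2 < (Real.sqrt r) ^ 2 := pow_lt_pow_left₀ hx (norm_nonneg _) two_ne_zero
      _ = r := Real.sq_sqrt hr.le
  have hsR0 : 0 < Real.sqrt R := Real.sqrt_pos.mpr hR0
  have hhsq : ∀ t ∈ ball (0 : ℂ) 1, ∀ x ∈ ball (0 : ℂ) (Real.sqrt R),
      h t x ^ 2 = g t (x ^ 2) - A t * x ^ 2 := fun t ht x hx => hs3 t ht _ (hsq R hR0 x hx)
  have hhE : ∀ t ∈ ball (0 : ℂ) 1, IsExt (Real.sqrt R) (h t) := by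
    intro t ht
    refine ⟨?_, ?_, ?_⟩
    · exact (hs1 t ht).comp (by fun_prop) (fun x hx => hsq R hR0 x hx)
    · show s t (0 ^ 2) = 1
      rw [zero_pow two_ne_zero, hs2 t ht]
    · intro x hx y hy hx0 hy0 hxy
      have h1 : (x⁻¹ * h t x) ^ 2 = (y⁻¹ * h t y) ^ 2 := by rw [hxy]
      rw [mul_pow, mul_pow, hhsq t ht x hx, hhsq t ht y hy] at h1
      have hx2 : x ^ 2 ≠ 0 := pow_ne_zero _ hx0
      have hy2 : y ^ 2 ≠ 0 := pow_ne_zero _ hy0
      have h2 : (x ^ 2)⁻¹ * g t (x ^ 2) = (y ^ 2)⁻¹ * g t (y ^ 2) := by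
        have e1 : x⁻¹ ^ 2 * (g t (x ^ 2) - A t * x ^ 2) = (x ^ 2)⁻¹ * g t (x ^ 2) - A t := by
          rw [inv_pow, mul_sub]; congr 1; field_simp
        have e2 : y⁻¹ ^ 2 * (g t (y ^ 2) - A t * y ^ 2) = (y ^ 2)⁻¹ * g t (y ^ 2) - A t := by
          rw [inv_pow, mul_sub]; congr 1; field_simp
        rw [e1, e2] at h1
        exact sub_left_inj.mp h1
      have h3 := (hgE t ht).inj _ (hsq R hR0 x hx) _ (hsq R hR0 y hy) hx2 hy2 h2
      rcases sq_eq_sq_iff_eq_or_eq_neg.mp h3 with h4 | h4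
      · exact h4
      · exfalso
        have h5 : h t x = h t y := by simp only [hh, h3]
        rw [h4, inv_neg, neg_mul, ← h4, h5] at hxy
        have h6 : y⁻¹ * h t y = 0 := by
          have : -(y⁻¹ * h t y) = y⁻¹ * h t y := hxy
          exact self_eq_neg.mp this.symm
        rcases mul_eq_zero.mp h6 with h7 | h7
        · exact hy0 (inv_eq_zero.mp h7)
        · exact hs4 t ht _ h7
  -- the coefficients
  have hps : ∀ t ∈ ball (0 : ℂ) 1, PowSeq (pc (h t)) := fun t ht =>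
    powSeq_pc hsR0 (hhE t ht).diff (hhE t ht).zero
  have hpc2 : ∀ t ∈ ball (0 : ℂ) 1, ∀ k, pc (h t) 2 k =
      if 2 ∣ k then pc (g t) 1 (k / 2) - (if k / 2 = 1 then A t else 0) else 0 := by
    intro t ht k
    have hsR : Real.sqrt R ^ 2 ≤ R := (Real.sq_sqrt hR0.le).le
    have h1 : tc (fun x => (fun y => g t y - A t * y) (x ^ 2)) k =
        if 2 ∣ k then tc (fun y => g t y - A t * y) (k / 2) else 0 :=
      tc_comp_pow (by norm_num) hsR0 hsR (hTd t ht) k
    have h2 : pc (h t) 2 k = tc (fun x => (fun y => g t y - A t * y) (x ^ 2)) k := by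
      have h3 := tc_unique (a := pc (h t) 2)
        (F := fun x => (fun y => g t y - A t * y) (x ^ 2)) hsR0 ?_ ?_
      · rw [h3]
      · exact (hTd t ht).comp (by fun_prop) (fun x hx => hsq R hR0 x hx)
      · filter_upwards [ball_mem_nhds (0 : ℂ) hsR0] with x hx
        have h4 := hasSum_tc ((hhE t ht).diff.pow 2) hx
        rw [← hhsq t ht x hx]
        exact h4
    rw [h2, h1]
    congr 1
    rw [tc_sub hR0 (hgE t ht).diff (by fun_prop), tc_const_mul_id]
    congr 1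
    simp only [pc, pow_one]
  have hpd : ∀ n k, DifferentiableOn ℂ (fun t => pc (h t) n k) (ball 0 1) := by
    intro n k
    refine powSeq_diff hps (d := 2) (by norm_num) ?_ k n
    intro k
    refine DifferentiableOn.congr ?_ (fun t ht => hpc2 t ht k)
    by_cases hdk : 2 ∣ k
    · simp only [if_pos hdk]
      apply (pc_holoM hd hM hG hγ J hB 1 _).sub
      by_cases hk1 : k / 2 = 1
      · simp only [if_pos hk1]; exact hAd
      · simp only [if_neg hk1]; exact differentiableOn_const _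
    · simp only [if_neg hdk]; exact differentiableOn_const _
  have h11 : ∀ t ∈ ball (0 : ℂ) 1, pc (h t) 1 1 = 0 := by
    intro t ht
    have h1 := (hps t ht).low (k := 1) le_rfl (fun i hi hik => by omega) 2
    rw [hpc2 t ht, if_neg (by norm_num)] at h1
    have h2 : ((2 : ℕ) : ℂ) ≠ 0 := by norm_num
    exact (mul_eq_zero.mp h1.symm).resolve_left h2
  have h12 : ∀ t ∈ ball (0 : ℂ) 1, pc (h t) 1 2 = -(A t) / 2 := by
    intro t ht
    have h1 := (hps t ht).low (k := 2) (by norm_num) (fun i hi hik => by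
      have : i = 1 := by omega
      rw [this]; exact h11 t ht) 2
    rw [hpc2 t ht, if_pos dvd_rfl, Nat.div_self (by norm_num), if_pos rfl] at h1
    have h2 : pc (g t) 1 1 = 0 := pc_oneM hd hM hG J (hB t ht) 1 le_rfl (by omega)
    rw [h2] at h1
    push_cast at h1
    linear_combination (-1 / 2) * h1
  -- the inequality
  have hmain := family_ineq (Real.sqrt_pos.mpr hR'0) (Real.sqrt_lt_sqrt hR'0.le hRR) (g := h)
    hhE hpd 0 (m := 1) le_rfl
  have hcoef : ∀ t ∈ ball (0 : ℂ) 1, hb (pc (h t)) (0 + 1) (0 + 1 + 1) = -(A t) / 2 := by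
    intro t ht
    rw [hb_eq, ← h12 t ht]
    have h3 : ∑ k : Fin (0 + 1), (if 0 + 1 - (k : ℕ) ≤ 0 + 1 + 1 then pc (h t) (0 + 1) (0 + 1 - k) *
        hb (pc (h t)) k (0 + 1 + 1 - (0 + 1 - k)) else 0) = 0 := by
      apply Finset.sum_eq_zero
      intro k _
      have hk : (k : ℕ) = 0 := by have := k.2; omega
      rw [hk]
      have h4 : pc (h t) (0 + 1) (0 + 1 - 0) = 0 := h11 t ht
      rw [h4, zero_mul, ite_self]
    rw [h3, sub_zero]
  set r : ℂ := deriv A 0 with hr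
  have hder : deriv (fun t => hb (pc (h t)) (0 + 1) (0 + 1 + 1)) 0 = -r / 2 := by
    have h1 : (fun t => hb (pc (h t)) (0 + 1) (0 + 1 + 1)) =ᶠ[𝓝 0] fun t => -(A t) / 2 := by
      filter_upwards [isOpen_ball.mem_nhds h0] with t ht using hcoef t ht
    rw [h1.deriv_eq]
    have h2 : HasDerivAt A r 0 := (hAd.differentiableAt (isOpen_ball.mem_nhds h0)).hasDerivAt
    exact (h2.neg.div_const (2 : ℂ)).deriv
  have hFb0 : derivative (Fb (pc (h 0)) 1) = 1 := by
    rw [Fb_eq]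
    have : ∑ k : Fin 1, C (pc (h 0) 1 (1 - k)) * Fb (pc (h 0)) k = 0 := by
      apply Finset.sum_eq_zero
      intro k _
      have hk : (k : ℕ) = 0 := by have := k.2; omega
      rw [hk]
      have h4 : pc (h 0) 1 (1 - 0) = 0 := h11 0 h0
      rw [h4]; simp
    rw [this, sub_zero, pow_one, derivative_X]
  rw [hder] at hmain
  simp only [Nat.zero_add, hFb0, eval_one, norm_one, one_pow, Nat.cast_one, one_mul] at hmain
  have hint : ∫ _z in (UU (h 0) (Real.sqrt R'))ᶜ, (1 : ℝ) =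
      (volume (UU (h 0) (Real.sqrt R'))ᶜ).toReal := by
    simp [Measure.real]
  rw [hint] at hmain
  set V : ℝ := (volume (UU (h 0) (Real.sqrt R'))ᶜ).toReal with hV
  have hV0 : 0 ≤ V := ENNReal.toReal_nonneg
  have hpi := Real.pi_pos
  have hrV : ‖r‖ / 2 ≤ 1 / Real.pi * V := by
    have h1 : ‖-r / 2‖ = ‖r‖ / 2 := by rw [norm_div, norm_neg]; norm_num
    rw [h1, ← sq] at hmain
    exact (pow_le_pow_iff_left₀ (by positivity) (by positivity) two_ne_zero).mp hmain
  -- the inclusion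
  set c : ℂ := γ 0 with hc
  have hsub : (UU (h 0) (Real.sqrt R'))ᶜ ⊆ {u : ℂ | u ^ 2 + P d i c ∈ EM d M' c J} := by
    intro u hu
    by_contra hcon
    apply hu
    have h1 : u ^ 2 + P d i c ∉ EM d M' c J := hcon
    have h2 : u ^ 2 + P d i c ∈ UU (fun x => G J (c, x)) (radM d M' J) := by
      by_contra h3
      exact h1 (compl_UU_subsetM hd hM hMM hG J (hB 0 h0) h3)
    obtain ⟨x, ⟨hx0, hxR⟩, hx⟩ := h2
    obtain ⟨y, hy⟩ := IsAlgClosed.exists_pow_nat_eq x (n := 2) (by norm_num)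
    have hy0 : y ≠ 0 := by
      rintro rfl
      rw [zero_pow two_ne_zero] at hy
      exact hx0 hy.symm
    have hyR : ‖y‖ < Real.sqrt R' := by
      apply Real.lt_sqrt_of_sq_lt
      rw [← norm_pow, hy]; exact hxR
    have hyR2 : y ∈ ball (0 : ℂ) (Real.sqrt R) := by
      rw [mem_ball_zero_iff]
      exact hyR.trans (Real.sqrt_lt_sqrt hR'0.le hRR)
    have h3 : (y⁻¹ * h 0 y) ^ 2 = u ^ 2 := by
      rw [mul_pow, hhsq 0 h0 y hyR2, hy, inv_pow, hy]
      have h4 : x⁻¹ * G J (c, x) = u ^ 2 + P d i c := hx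
      have h5 : x⁻¹ * (g 0 x - A 0 * x) = x⁻¹ * G J (c, x) - P d i c := by
        rw [mul_sub]; congr 1
        show x⁻¹ * (P d i c * x) = P d i c
        field_simp
      rw [h5, h4]; ring
    rcases sq_eq_sq_iff_eq_or_eq_neg.mp h3 with h4 | h4
    · exact ⟨y, ⟨hy0, hyR⟩, h4⟩
    · refine ⟨-y, ⟨neg_ne_zero.mpr hy0, by rw [norm_neg]; exact hyR⟩, ?_⟩
      show (-y)⁻¹ * h 0 (-y) = u
      have h5 : h 0 (-y) = h 0 y := by simp only [hh, neg_sq]
      rw [h5, inv_neg, neg_mul, h4, neg_neg]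
  have hc2 : ‖c‖ ≤ M' := by
    have := hBJ 0 h0 1 le_rfl (by omega)
    rw [P_one hd] at this
    linarith
  have hfin : volume {u : ℂ | u ^ 2 + P d i c ∈ EM d M' c J} ≠ ⊤ := by
    have hbd : Bornology.IsBounded {u : ℂ | u ^ 2 + P d i c ∈ EM d M' c J} := by
      obtain ⟨K, hK⟩ := (isCompact_EM hd hM3 hc2 J).isBounded.exists_norm_le
      apply (isBounded_closedBall (x := (0:ℂ)) (r := K + ‖P d i c‖ + 1)).subset
      intro u hu
      rw [mem_closedBall_zero_iff]
      have h1 := hK _ hu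
      have h2 : ‖u‖ ^ 2 ≤ K + ‖P d i c‖ := by
        have := norm_sub_le (u ^ 2 + P d i c) (P d i c)
        rw [add_sub_cancel_right, norm_pow] at this
        linarith
      nlinarith [norm_nonneg u, norm_nonneg (P d i c)]
    exact hbd.measure_lt_top.ne
  have hVle : V ≤ (volume {u : ℂ | u ^ 2 + P d i c ∈ EM d M' c J}).toReal :=
    ENNReal.toReal_mono hfin (measure_mono hsub)
  calc ‖r‖ = 2 * (‖r‖ / 2) := by ring
    _ ≤ 2 * (1 / Real.pi * V) := mul_le_mul_of_nonneg_left hrV (by norm_num)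
    _ = 2 / Real.pi * V := by ring
    _ ≤ _ := mul_le_mul_of_nonneg_left hVle (by positivity)

end Pool.Agent.TH574.J2489
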