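import Pool.Agent.TH279.MD.Defs

set_option autoImplicit false

open Set Filter Metric MeasureTheory
open Pool.Agent.TH279.MD

namespace Pool.Agent.TH574.J2491

/-! ### products along an eventually periodic sequence -/

section prod
variable {x : ℕ → ℝ} {b Λ τ : ℝ} {k p : ℕ}

theorem per_prod (hb : 0 < b) (hx : ∀ j, b ≤ x j) (hper : ∀ j, k + 1 ≤ j → x (j + p) = x j) :
    ∀ j, k + 1 ≤ j → ∏ i ∈ Finset.Ico j (j + p), x i = ∏ i ∈ Finset.Ico (k + 1) (k + 1 + p), x i := by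
  intro j hj
  induction j, hj using Nat.le_induction with
  | base => rfl
  | succ j hj ih =>
    rw [← ih]
    have h1 : ∏ i ∈ Finset.Ico j (j + p + 1), x i = (∏ i ∈ Finset.Ico j (j + p), x i) * x (j + p) :=
      Finset.prod_Ico_succ_top (by omega) _
    have h2 : ∏ i ∈ Finset.Ico j (j + p + 1), x i = x j * ∏ i ∈ Finset.Ico (j + 1) (j + p + 1), x i :=
      Finset.prod_eq_prod_Ico_succ_bot (by omega) _
    have h3 : x j ≠ 0 := (hb.trans_le (hx j)).ne'
    rw [hper j hj] at h1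
    have h4 : x j * ∏ i ∈ Finset.Ico (j + 1) (j + p + 1), x i = x j * ∏ i ∈ Finset.Ico j (j + p), x i := by
      rw [← h2, h1]; ring
    have h5 := mul_left_cancel₀ h3 h4
    rw [show j + 1 + p = j + p + 1 by ring]
    exact h5

theorem pow_prod (hb : 0 < b) (hx : ∀ j, b ≤ x j) (hper : ∀ j, k + 1 ≤ j → x (j + p) = x j) (hΛ : 0 ≤ Λ)
    (hL : Λ ≤ ∏ i ∈ Finset.Ico (k + 1) (k + 1 + p), x i) (q : ℕ) : ∀ j, k + 1 ≤ j →
    Λ ^ q ≤ ∏ i ∈ Finset.Ico j (j + q * p), x i := by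
  induction q with
  | zero => intro j _; simp
  | succ q ih =>
    intro j hj
    have h1 := Finset.prod_Ico_consecutive x (show j ≤ j + p by omega) (show j + p ≤ j + (q + 1) * p by nlinarith)
    rw [← h1, per_prod hb hx hper j hj, pow_succ, mul_comm]
    have h2 := ih (j + p) (by omega)
    have e : j + p + q * p = j + (q + 1) * p := by ring
    rw [e] at h2
    exact mul_le_mul hL h2 (pow_nonneg hΛ q) (hΛ.trans hL)

theorem b_prod (hb : 0 < b) (hx : ∀ j, b ≤ x j) (r j : ℕ) : b ^ r ≤ ∏ i ∈ Finset.Ico j (j + r), x i := by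
  have : b ^ r = ∏ _i ∈ Finset.Ico j (j + r), b := by
    rw [Finset.prod_const, Nat.card_Ico]; congr 1; omega
  rw [this]
  exact Finset.prod_le_prod (fun _ _ => hb.le) (fun i _ => hx i)

theorem E_bound (hb : 0 < b) (hb1 : b ≤ 1) (hx : ∀ j, b ≤ x j) (hp : 0 < p)
    (hper : ∀ j, k + 1 ≤ j → x (j + p) = x j) (hτ : 1 ≤ τ)
    (hL : τ ^ p ≤ ∏ i ∈ Finset.Ico (k + 1) (k + 1 + p), x i) (j m : ℕ) :
    (b ^ (k + 1 + p) / τ ^ (k + 1 + p)) * τ ^ m ≤ ∏ i ∈ Finset.Ico j (j + m), x i := by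
  have hτ0 : 0 < τ := by linarith
  -- tail estimate
  have tail : ∀ j, k + 1 ≤ j → ∀ m, (b ^ p / τ ^ p) * τ ^ m ≤ ∏ i ∈ Finset.Ico j (j + m), x i := by
    intro j hj m
    have hdm := Nat.div_add_mod m p
    have hmod := Nat.mod_lt m hp
    set q := m / p with hq
    set r := m % p with hr
    have e1 : j + m = (j + q * p) + r := by rw [mul_comm q p]; omega
    have h1 := Finset.prod_Ico_consecutive x (show j ≤ j + q * p by omega) (show j + q * p ≤ (j + q * p) + r by omega)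
    rw [e1, ← h1]
    have h2 := pow_prod hb hx hper (by positivity) hL q j hj
    have h3 := b_prod hb hx r (j + q * p)
    have h4 : b ^ p ≤ b ^ r := pow_le_pow_of_le_one hb.le hb1 hmod.le
    have h5 : τ ^ m ≤ (τ ^ p) ^ q * τ ^ p := by
      rw [← pow_mul, ← pow_add]
      exact pow_le_pow_right₀ hτ (by omega)
    calc (b ^ p / τ ^ p) * τ ^ m ≤ (b ^ p / τ ^ p) * ((τ ^ p) ^ q * τ ^ p) := mul_le_mul_of_nonneg_left h5 (by positivity)
      _ = (τ ^ p) ^ q * b ^ p := by field_simp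
      _ ≤ (∏ i ∈ Finset.Ico j (j + q * p), x i) * ∏ i ∈ Finset.Ico (j + q * p) ((j + q * p) + r), x i :=
          mul_le_mul h2 (h4.trans h3) (by positivity) ((by positivity : (0:ℝ) ≤ (τ ^ p) ^ q).trans h2)
  by_cases hm : m ≤ k + 1
  · have h1 := b_prod hb hx m j
    have h2 : b ^ (k + 1 + p) ≤ b ^ m := pow_le_pow_of_le_one hb.le hb1 (by omega)
    have h3 : τ ^ m ≤ τ ^ (k + 1 + p) := pow_le_pow_right₀ hτ (by omega)
    refine le_trans ?_ (h2.trans h1)
    rw [div_mul_eq_mul_div, div_le_iff₀ (by positivity)]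
    exact mul_le_mul_of_nonneg_left h3 (by positivity)
  · push Not at hm
    have h1 := Finset.prod_Ico_consecutive x (show j ≤ j + (k + 1) by omega) (show j + (k + 1) ≤ j + m by omega)
    rw [← h1]
    have h2 := b_prod hb hx (k + 1) j
    have h3 := tail (j + (k + 1)) (by omega) (m - (k + 1))
    have e1 : j + (k + 1) + (m - (k + 1)) = j + m := by omega
    rw [e1] at h3
    have h4 : (b ^ (k + 1 + p) / τ ^ (k + 1 + p)) * τ ^ m = b ^ (k + 1) * ((b ^ p / τ ^ p) * τ ^ (m - (k + 1))) := by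
      have : τ ^ m = τ ^ (k + 1) * τ ^ (m - (k + 1)) := by rw [← pow_add]; congr 1; omega
      rw [this, pow_add b, pow_add τ]
      field_simp
    rw [h4]
    exact mul_le_mul h2 h3 (by positivity) ((by positivity : (0:ℝ) ≤ b ^ (k + 1)).trans h2)

end prod

theorem geom {x : ℝ} (hx : 0 ≤ x) (hx1 : x < 1) (m : ℕ) : ∑ j ∈ Finset.range m, x ^ (m - j) ≤ x / (1 - x) := by
  have h1 : 0 < 1 - x := by linarith
  induction m with
  | zero =>
    rw [Finset.range_zero, Finset.sum_empty]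
    positivity
  | succ m ih =>
    have e : ∑ j ∈ Finset.range (m + 1), x ^ (m + 1 - j) = x * ∑ j ∈ Finset.range m, x ^ (m - j) + x := by
      rw [Finset.sum_range_succ, Finset.mul_sum]
      congr 1
      · apply Finset.sum_congr rfl
        intro j hj
        rw [Finset.mem_range] at hj
        rw [← pow_succ']; congr 1; omega
      · simp
    rw [e]
    calc x * ∑ j ∈ Finset.range m, x ^ (m - j) + x ≤ x * (x / (1 - x)) + x := by gcongr
      _ = x / (1 - x) := by field_simp; ring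

/-! ### partial products of a complex sequence -/

section seq
variable {A S : ℕ → ℂ} {a τ b : ℝ}

/-- partial products -/
noncomputable def DP (A : ℕ → ℂ) (n : ℕ) : ℂ := ∏ j ∈ Finset.range n, A j

theorem DP_succ (A : ℕ → ℂ) (n : ℕ) : DP A (n + 1) = DP A n * A n := Finset.prod_range_succ _ _

theorem DP_ratio (hE : ∀ j m, a * τ ^ m ≤ ∏ i ∈ Finset.Ico j (j + m), ‖A i‖) {j m : ℕ} (hjm : j ≤ m) :
    ‖DP A j‖ * (a * τ ^ (m - j)) ≤ ‖DP A m‖ := by
  have h1 : DP A m = DP A j * ∏ i ∈ Finset.Ico j m, A i :=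
    (Finset.prod_range_mul_prod_Ico _ hjm).symm
  rw [h1, norm_mul, norm_prod]
  have h := hE j (m - j)
  rw [show j + (m - j) = m by omega] at h
  exact mul_le_mul_of_nonneg_left h (norm_nonneg _)

theorem sumD (ha : 0 < a) (hτ : 1 < τ) (hE : ∀ j m, a * τ ^ m ≤ ∏ i ∈ Finset.Ico j (j + m), ‖A i‖) (m : ℕ) :
    ∑ j ∈ Finset.range m, ‖DP A j‖ ≤ ‖DP A m‖ / (a * (τ - 1)) := by
  have hτ0 : 0 < τ := by linarith
  have hτ1 : 0 < τ - 1 := by linarith
  have h1 : ∀ j ∈ Finset.range m, ‖DP A j‖ ≤ (‖DP A m‖ / a) * τ⁻¹ ^ (m - j) := by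
    intro j hj
    have h2 := DP_ratio hE (Finset.mem_range.1 hj).le
    rw [inv_pow, ← div_eq_mul_inv, div_div, le_div_iff₀ (by positivity)]
    exact h2
  refine (Finset.sum_le_sum h1).trans ?_
  rw [← Finset.mul_sum]
  have h3 := geom (x := τ⁻¹) (by positivity) (inv_lt_one_of_one_lt₀ hτ) m
  calc (‖DP A m‖ / a) * ∑ j ∈ Finset.range m, τ⁻¹ ^ (m - j) ≤ (‖DP A m‖ / a) * (τ⁻¹ / (1 - τ⁻¹)) :=
        mul_le_mul_of_nonneg_left h3 (by positivity)
    _ = ‖DP A m‖ / (a * (τ - 1)) := by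
        have : 1 - τ⁻¹ = (τ - 1) / τ := by field_simp
        rw [this]; field_simp

theorem prod_close (hb : 0 < b) (hA : ∀ j, b ≤ ‖A j‖) {m : ℕ}
    (h : ∑ j ∈ Finset.range m, ‖S j - A j‖ ≤ b / 4) : ‖DP S m - DP A m‖ ≤ ‖DP A m‖ / 2 := by
  have hA0 : ∀ j, A j ≠ 0 := fun j h0 => by
    have := hA j
    rw [h0, norm_zero] at this
    linarith
  set x : ℕ → ℂ := fun j => (S j - A j) / A j with hx
  have e1 : DP S m = DP A m * ∏ j ∈ Finset.range m, (1 + x j) := by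
    unfold DP
    rw [← Finset.prod_mul_distrib]
    apply Finset.prod_congr rfl
    intro j _
    have := hA0 j
    simp only [hx]
    field_simp
    ring
  have h6 : ∑ j ∈ Finset.range m, ‖x j‖ ≤ 1 / 4 := by
    calc ∑ j ∈ Finset.range m, ‖x j‖ ≤ ∑ j ∈ Finset.range m, ‖S j - A j‖ / b := by
          apply Finset.sum_le_sum
          intro j _
          show ‖(S j - A j) / A j‖ ≤ _
          rw [norm_div]
          exact div_le_div_of_nonneg_left (norm_nonneg _) hb (hA j)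
      _ = (∑ j ∈ Finset.range m, ‖S j - A j‖) / b := by rw [Finset.sum_div]
      _ ≤ (b / 4) / b := div_le_div_of_nonneg_right h hb.le
      _ = 1 / 4 := by field_simp
  have h7 := Finset.norm_prod_one_add_sub_one_le (Finset.range m) x
  have h8 : Real.exp (∑ j ∈ Finset.range m, ‖x j‖) ≤ 3 / 2 := by
    refine (Real.exp_le_exp.2 h6).trans ?_
    have h9 := Real.add_one_le_exp (-(1 / 4 : ℝ))
    have h10 : Real.exp (-(1 / 4)) * Real.exp (1 / 4) = 1 := by rw [← Real.exp_add]; simp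
    nlinarith [Real.exp_pos (1 / 4 : ℝ)]
  rw [e1]
  have e3 : DP A m * ∏ j ∈ Finset.range m, (1 + x j) - DP A m = DP A m * (∏ j ∈ Finset.range m, (1 + x j) - 1) := by ring
  rw [e3, norm_mul]
  have h11 : ‖∏ j ∈ Finset.range m, (1 + x j) - 1‖ ≤ 1 / 2 := by linarith
  calc ‖DP A m‖ * ‖∏ j ∈ Finset.range m, (1 + x j) - 1‖ ≤ ‖DP A m‖ * (1 / 2) :=
        mul_le_mul_of_nonneg_left h11 (norm_nonneg _)
    _ = ‖DP A m‖ / 2 := by ring

end seq

/-! ### powers -/

theorem pow_diff {R : ℝ} (hR : 1 ≤ R) {x v : ℂ} (hx : ‖x‖ ≤ R) (hv : ‖v‖ ≤ R) (i : ℕ) :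
    ‖x ^ i - v ^ i‖ ≤ i * R ^ i * ‖x - v‖ := by
  have hR0 : 0 < R := by linarith
  induction i with
  | zero => simp
  | succ i ih =>
    have e : x ^ (i + 1) - v ^ (i + 1) = x * (x ^ i - v ^ i) + (x - v) * v ^ i := by ring
    rw [e]
    refine (norm_add_le _ _).trans ?_
    rw [norm_mul, norm_mul, norm_pow]
    have h1 : ‖x‖ * ‖x ^ i - v ^ i‖ ≤ R * (i * R ^ i * ‖x - v‖) :=
      mul_le_mul hx ih (norm_nonneg _) hR0.le
    have h2 : ‖v‖ ^ i ≤ R ^ (i + 1) := by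
      calc ‖v‖ ^ i ≤ R ^ i := pow_le_pow_left₀ (norm_nonneg _) hv i
        _ ≤ R ^ (i + 1) := pow_le_pow_right₀ hR (by omega)
    have h3 : ‖x - v‖ * ‖v‖ ^ i ≤ ‖x - v‖ * R ^ (i + 1) :=
      mul_le_mul_of_nonneg_left h2 (norm_nonneg _)
    push_cast
    calc ‖x‖ * ‖x ^ i - v ^ i‖ + ‖x - v‖ * ‖v‖ ^ i ≤ R * (i * R ^ i * ‖x - v‖) + ‖x - v‖ * R ^ (i + 1) :=
          add_le_add h1 h3
      _ = ((i : ℝ) + 1) * R ^ (i + 1) * ‖x - v‖ := by ring

/-- The constant. -/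
noncomputable def MM (d : ℕ) (R : ℝ) : ℝ := (d : ℝ) ^ 2 * R ^ d

theorem MM_pos {d : ℕ} (hd : 2 ≤ d) {R : ℝ} (hR : 1 ≤ R) : 0 < MM d R := by
  have : (0 : ℝ) < d := by exact_mod_cast (by omega : 0 < d)
  unfold MM; positivity

theorem S_close {d : ℕ} (hd : 2 ≤ d) {R : ℝ} (hR : 1 ≤ R) {x v : ℂ} (hx : ‖x‖ ≤ R) (hv : ‖v‖ ≤ R) :
    ‖∑ i ∈ Finset.range d, x ^ i * v ^ (d - 1 - i) - (d : ℂ) * v ^ (d - 1)‖ ≤ MM d R * ‖x - v‖ := by
  have hR0 : 0 < R := by linarith
  have e : (d : ℂ) * v ^ (d - 1) = ∑ i ∈ Finset.range d, v ^ i * v ^ (d - 1 - i) := by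
    rw [Finset.sum_congr rfl (g := fun _ => v ^ (d - 1))]
    · simp
    · intro i hi
      rw [← pow_add]; congr 1
      have := Finset.mem_range.1 hi
      omega
  rw [e, ← Finset.sum_sub_distrib]
  refine (norm_sum_le _ _).trans ?_
  have h1 : ∀ i ∈ Finset.range d, ‖x ^ i * v ^ (d - 1 - i) - v ^ i * v ^ (d - 1 - i)‖ ≤
      d * R ^ d * ‖x - v‖ := by
    intro i hi
    have hid := Finset.mem_range.1 hi
    rw [← sub_mul, norm_mul, norm_pow]
    have h2 := pow_diff hR hx hv i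
    have h3 : ‖v‖ ^ (d - 1 - i) ≤ R ^ (d - 1 - i) := pow_le_pow_left₀ (norm_nonneg _) hv _
    calc ‖x ^ i - v ^ i‖ * ‖v‖ ^ (d - 1 - i) ≤ (i * R ^ i * ‖x - v‖) * R ^ (d - 1 - i) :=
          mul_le_mul h2 h3 (by positivity) (by positivity)
      _ = i * (R ^ i * R ^ (d - 1 - i)) * ‖x - v‖ := by ring
      _ = i * R ^ (d - 1) * ‖x - v‖ := by rw [← pow_add]; congr 3; omega
      _ ≤ d * R ^ d * ‖x - v‖ := by
          gcongr
          omega
  refine (Finset.sum_le_sum h1).trans ?_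
  rw [Finset.sum_const, Finset.card_range, nsmul_eq_mul]
  unfold MM
  exact le_of_eq (by ring)

theorem A_close {d : ℕ} (hd : 2 ≤ d) {R : ℝ} (hR : 1 ≤ R) {x v : ℂ} (hx : ‖x‖ ≤ R) (hv : ‖v‖ ≤ R) :
    ‖(d : ℂ) * x ^ (d - 1) - (d : ℂ) * v ^ (d - 1)‖ ≤ MM d R * ‖x - v‖ := by
  have hR0 : 0 < R := by linarith
  rw [← mul_sub, norm_mul, Complex.norm_natCast]
  have h2 := pow_diff hR hx hv (d - 1)
  have h3 : ((d - 1 : ℕ) : ℝ) ≤ d := by exact_mod_cast Nat.sub_le d 1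
  calc (d : ℝ) * ‖x ^ (d - 1) - v ^ (d - 1)‖ ≤ d * (((d - 1 : ℕ) : ℝ) * R ^ (d - 1) * ‖x - v‖) :=
        mul_le_mul_of_nonneg_left h2 (by positivity)
    _ ≤ d * (d * R ^ d * ‖x - v‖) := by
        gcongr
        omega
    _ = MM d R * ‖x - v‖ := by unfold MM; ring

/-! ### two orbits -/

/-- The derivative factors. -/
noncomputable def AA (d : ℕ) (c v : ℂ) (j : ℕ) : ℂ := (d : ℂ) * vv d c v j ^ (d - 1)

section two
variable {d : ℕ} {c v w : ℂ} {a τ b t s R : ℝ} {n : ℕ}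

theorem y_succ (j : ℕ) : vv d c w (j + 1) - vv d c v (j + 1) =
    (∑ i ∈ Finset.range d, vv d c w j ^ i * vv d c v j ^ (d - 1 - i)) * (vv d c w j - vv d c v j) := by
  rw [geom_sum₂_mul, vv_succ, vv_succ]; ring

theorem y_prod (m : ℕ) : vv d c w m - vv d c v m =
    DP (fun j => ∑ i ∈ Finset.range d, vv d c w j ^ i * vv d c v j ^ (d - 1 - i)) m * (w - v) := by
  induction m with
  | zero => simp [DP, vv_zero]
  | succ m ih => rw [y_succ, DP_succ, ih]; ring

theorem close (hd : 2 ≤ d) (ha : 0 < a) (hτ : 1 < τ) (hb : 0 < b) (hx : ∀ j, b ≤ ‖AA d c v j‖)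
    (hE : ∀ j m, a * τ ^ m ≤ ∏ i ∈ Finset.Ico j (j + m), ‖AA d c v i‖)
    (hR : 1 ≤ R) (hvR : ∀ j, ‖vv d c v j‖ ≤ R - 1) (ht1 : 2 * t ≤ 1)
    (ht : 8 * MM d R * t ≤ b * (a * (τ - 1))) (hs : ‖w - v‖ ≤ s)
    (hr : ∀ j, j ≤ n → ‖DP (AA d c v) j‖ * s ≤ t) :
    ∀ m, m ≤ n → ‖vv d c w m - vv d c v m‖ ≤ 2 * ‖DP (AA d c v) m‖ * s := by
  have hτ0 : 0 < τ := by linarith
  have hτ1 : 0 < τ - 1 := by linarith
  have hs0 : 0 ≤ s := (norm_nonneg _).trans hs
  have hM := MM_pos hd hR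
  intro m
  induction m using Nat.strong_induction_on with
  | _ m ih =>
  intro hmn
  have h1 : ∀ j ∈ Finset.range m, ‖(∑ i ∈ Finset.range d, vv d c w j ^ i * vv d c v j ^ (d - 1 - i)) - AA d c v j‖ ≤
      MM d R * (2 * ‖DP (AA d c v) j‖ * s) := by
    intro j hj
    have hjm := Finset.mem_range.1 hj
    have h2 := ih j hjm (by omega)
    have h3 := hr j (by omega)
    have h4 : ‖vv d c w j‖ ≤ R := by
      have h5 := norm_add_le (vv d c w j - vv d c v j) (vv d c v j)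
      rw [sub_add_cancel] at h5
      have := hvR j
      nlinarith
    have h6 : ‖vv d c v j‖ ≤ R := (hvR j).trans (by linarith)
    exact (S_close hd hR h4 h6).trans (mul_le_mul_of_nonneg_left h2 hM.le)
  have h2 : ∑ j ∈ Finset.range m, ‖(∑ i ∈ Finset.range d, vv d c w j ^ i * vv d c v j ^ (d - 1 - i)) - AA d c v j‖ ≤ b / 4 := by
    calc _ ≤ ∑ j ∈ Finset.range m, MM d R * (2 * ‖DP (AA d c v) j‖ * s) := Finset.sum_le_sum h1
      _ = (2 * MM d R * s) * ∑ j ∈ Finset.range m, ‖DP (AA d c v) j‖ := by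
          rw [Finset.mul_sum]; apply Finset.sum_congr rfl; intro j _; ring
      _ ≤ (2 * MM d R * s) * (‖DP (AA d c v) m‖ / (a * (τ - 1))) :=
          mul_le_mul_of_nonneg_left (sumD ha hτ hE m) (by positivity)
      _ = 2 * MM d R * (‖DP (AA d c v) m‖ * s) / (a * (τ - 1)) := by ring
      _ ≤ 2 * MM d R * t / (a * (τ - 1)) := by
          apply div_le_div_of_nonneg_right _ (by positivity)
          exact mul_le_mul_of_nonneg_left (hr m hmn) (by positivity)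
      _ ≤ b / 4 := by
          rw [div_le_iff₀ (by positivity)]; linarith
  have h3 := prod_close hb hx h2
  rw [y_prod, norm_mul]
  have h4 : ‖DP (fun j => ∑ i ∈ Finset.range d, vv d c w j ^ i * vv d c v j ^ (d - 1 - i)) m‖ ≤
      2 * ‖DP (AA d c v) m‖ := by
    have h5 := norm_add_le (DP (fun j => ∑ i ∈ Finset.range d, vv d c w j ^ i * vv d c v j ^ (d - 1 - i)) m -
      DP (AA d c v) m) (DP (AA d c v) m)
    rw [sub_add_cancel] at h5
    linarith [norm_nonneg (DP (AA d c v) m)]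
  exact mul_le_mul h4 hs (norm_nonneg _) (by positivity)

theorem closeD (hd : 2 ≤ d) (ha : 0 < a) (hτ : 1 < τ) (hb : 0 < b) (hx : ∀ j, b ≤ ‖AA d c v j‖)
    (hE : ∀ j m, a * τ ^ m ≤ ∏ i ∈ Finset.Ico j (j + m), ‖AA d c v i‖)
    (hR : 1 ≤ R) (hvR : ∀ j, ‖vv d c v j‖ ≤ R - 1) (ht1 : 2 * t ≤ 1)
    (ht : 8 * MM d R * t ≤ b * (a * (τ - 1))) (hs : ‖w - v‖ ≤ s)
    (hr : ∀ j, j ≤ n → ‖DP (AA d c v) j‖ * s ≤ t) :
    ∀ m, m ≤ n → ‖DP (AA d c w) m - DP (AA d c v) m‖ ≤ ‖DP (AA d c v) m‖ / 2 := by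
  have hτ0 : 0 < τ := by linarith
  have hτ1 : 0 < τ - 1 := by linarith
  have hs0 : 0 ≤ s := (norm_nonneg _).trans hs
  have hM := MM_pos hd hR
  have hcl := close hd ha hτ hb hx hE hR hvR ht1 ht hs hr
  intro m hmn
  apply prod_close hb hx
  calc _ ≤ ∑ j ∈ Finset.range m, MM d R * (2 * ‖DP (AA d c v) j‖ * s) := by
        apply Finset.sum_le_sum
        intro j hj
        have hjm := Finset.mem_range.1 hj
        have h2 := hcl j (by omega)
        have h3 := hr j (by omega)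
        have h4 : ‖vv d c w j‖ ≤ R := by
          have h5 := norm_add_le (vv d c w j - vv d c v j) (vv d c v j)
          rw [sub_add_cancel] at h5
          have := hvR j
          nlinarith
        have h6 : ‖vv d c v j‖ ≤ R := (hvR j).trans (by linarith)
        exact (A_close hd hR h4 h6).trans (mul_le_mul_of_nonneg_left h2 hM.le)
    _ = (2 * MM d R * s) * ∑ j ∈ Finset.range m, ‖DP (AA d c v) j‖ := by
        rw [Finset.mul_sum]; apply Finset.sum_congr rfl; intro j _; ring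
    _ ≤ (2 * MM d R * s) * (‖DP (AA d c v) m‖ / (a * (τ - 1))) :=
        mul_le_mul_of_nonneg_left (sumD ha hτ hE m) (by positivity)
    _ = 2 * MM d R * (‖DP (AA d c v) m‖ * s) / (a * (τ - 1)) := by ring
    _ ≤ 2 * MM d R * t / (a * (τ - 1)) := by
        apply div_le_div_of_nonneg_right _ (by positivity)
        exact mul_le_mul_of_nonneg_left (hr m hmn) (by positivity)
    _ ≤ b / 4 := by
        rw [div_le_iff₀ (by positivity)]; linarith

/-- The perturbed linear recursion. -/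
theorem recur (hd : 2 ≤ d) (ha : 0 < a) (hτ : 1 < τ) (hb : 0 < b) (hx : ∀ j, b ≤ ‖AA d c v j‖)
    (hE : ∀ j m, a * τ ^ m ≤ ∏ i ∈ Finset.Ico j (j + m), ‖AA d c v i‖)
    (hR : 1 ≤ R) (hvR : ∀ j, ‖vv d c v j‖ ≤ R - 1) (ht1 : 2 * t ≤ 1)
    (ht : 8 * MM d R * t ≤ b * (a * (τ - 1))) (hs : ‖w - v‖ ≤ s)
    (hr : ∀ j, j ≤ n → ‖DP (AA d c v) j‖ * s ≤ t)
    {X V : ℕ → ℂ} {Bv : ℝ} (hBv : 0 ≤ Bv) (hV : ∀ j, ‖V j‖ ≤ Bv)
    (hXs : ∀ j, X (j + 1) = AA d c w j * X j + 1) (hVs : ∀ j, V (j + 1) = AA d c v j * V j + 1) :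
    ∀ m, m ≤ n → ‖(X m - V m) - DP (AA d c w) m * (X 0 - V 0)‖ ≤
      ‖DP (AA d c w) m‖ * ((4 * MM d R * Bv / b) * m * s) := by
  have hs0 : 0 ≤ s := (norm_nonneg _).trans hs
  have hM := MM_pos hd hR
  have hcl := close hd ha hτ hb hx hE hR hvR ht1 ht hs hr
  have hcD := closeD hd ha hτ hb hx hE hR hvR ht1 ht hs hr
  intro m
  induction m with
  | zero => intro _; simp [DP]
  | succ m ih =>
    intro hmn
    have ih1 := ih (by omega)
    have e1 : (X (m + 1) - V (m + 1)) - DP (AA d c w) (m + 1) * (X 0 - V 0) =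
        AA d c w m * ((X m - V m) - DP (AA d c w) m * (X 0 - V 0)) +
          (AA d c w m - AA d c v m) * V m := by
      rw [hXs, hVs, DP_succ]; ring
    rw [e1]
    refine (norm_add_le _ _).trans ?_
    rw [norm_mul, norm_mul]
    have h1 : ‖AA d c w m‖ * ‖(X m - V m) - DP (AA d c w) m * (X 0 - V 0)‖ ≤
        ‖DP (AA d c w) (m + 1)‖ * ((4 * MM d R * Bv / b) * m * s) := by
      rw [DP_succ, norm_mul]
      calc _ ≤ ‖AA d c w m‖ * (‖DP (AA d c w) m‖ * ((4 * MM d R * Bv / b) * m * s)) :=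
            mul_le_mul_of_nonneg_left ih1 (norm_nonneg _)
        _ = _ := by ring
    have h2 : ‖AA d c w m - AA d c v m‖ * ‖V m‖ ≤
        ‖DP (AA d c w) (m + 1)‖ * ((4 * MM d R * Bv / b) * s) := by
      have g1 := hcl m (by omega)
      have g3 := hr m (by omega)
      have g4 : ‖vv d c w m‖ ≤ R := by
        have h5 := norm_add_le (vv d c w m - vv d c v m) (vv d c v m)
        rw [sub_add_cancel] at h5
        have := hvR m
        nlinarith
      have g6 : ‖vv d c v m‖ ≤ R := (hvR m).trans (by linarith)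
      have g7 : ‖AA d c w m - AA d c v m‖ ≤ MM d R * (2 * ‖DP (AA d c v) m‖ * s) :=
        (A_close hd hR g4 g6).trans (mul_le_mul_of_nonneg_left g1 hM.le)
      have g8 : b * ‖DP (AA d c v) m‖ / 2 ≤ ‖DP (AA d c w) (m + 1)‖ := by
        have k1 := hcD (m + 1) hmn
        have k2 : ‖DP (AA d c v) (m + 1)‖ - ‖DP (AA d c w) (m + 1)‖ ≤ ‖DP (AA d c v) (m + 1)‖ / 2 := by
          refine (norm_sub_norm_le _ _).trans ?_
          rw [norm_sub_rev]; exact k1
        have k3 : b * ‖DP (AA d c v) m‖ ≤ ‖DP (AA d c v) (m + 1)‖ := by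
          rw [DP_succ, norm_mul, mul_comm]
          exact mul_le_mul_of_nonneg_left (hx m) (norm_nonneg _)
        linarith
      calc ‖AA d c w m - AA d c v m‖ * ‖V m‖ ≤ (MM d R * (2 * ‖DP (AA d c v) m‖ * s)) * Bv :=
            mul_le_mul g7 (hV m) (norm_nonneg _) (by positivity)
        _ = (b * ‖DP (AA d c v) m‖ / 2) * ((4 * MM d R * Bv / b) * s) := by field_simp; ring
        _ ≤ _ := mul_le_mul_of_nonneg_right g8 (by positivity)
    calc _ ≤ ‖DP (AA d c w) (m + 1)‖ * ((4 * MM d R * Bv / b) * m * s) +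
          ‖DP (AA d c w) (m + 1)‖ * ((4 * MM d R * Bv / b) * s) := add_le_add h1 h2
      _ = ‖DP (AA d c w) (m + 1)‖ * ((4 * MM d R * Bv / b) * ((m + 1 : ℕ) : ℝ) * s) := by
          push_cast; ring

end two

/-! ### orbits -/

theorem vv_cont (d j : ℕ) : Continuous (fun p : ℂ × ℂ => vv d p.1 p.2 j) := by
  induction j with
  | zero => simpa [vv] using continuous_snd
  | succ j ih =>
    simp_rw [vv_succ]
    exact (ih.pow d).add continuous_fst

theorem orb_per {d L k : ℕ} {ω c v : ℂ} (h : Orb d L k ω c v) :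
    ∀ j, k + 1 ≤ j → vv d c v (j + (L - k)) = vv d c v j := by
  have hlt := h.lt
  intro j hj
  induction j, hj using Nat.le_induction with
  | base =>
    rw [show k + 1 + (L - k) = L + 1 by omega, vv_succ, vv_succ, h.opp, mul_pow, h.root, one_mul]
  | succ j hj ih =>
    rw [show j + 1 + (L - k) = (j + (L - k)) + 1 by omega, vv_succ, vv_succ, ih]

theorem orb_red {d L k : ℕ} (hlt : k < L) {ω : ℂ} (j : ℕ) :
    ∃ i, i ≤ L ∧ ∀ c v : ℂ, Orb d L k ω c v → vv d c v j = vv d c v i := by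
  induction j using Nat.strong_induction_on with
  | _ j ih =>
  by_cases hj : j ≤ L
  · exact ⟨j, hj, fun _ _ _ => rfl⟩
  · obtain ⟨i, hi1, hi2⟩ := ih (j - (L - k)) (by omega)
    refine ⟨i, hi1, ?_⟩
    intro c v h
    rw [← hi2 c v h, ← orb_per h (j - (L - k)) (by omega)]
    congr 1; omega

theorem orb_ne {d L k : ℕ} (hd : 2 ≤ d) {ω c₀ : ℂ} (h : Orb d L k ω c₀ c₀) :
    ∀ j, j ≤ L → vv d c₀ c₀ j ≠ 0 := by
  have hlt := h.lt
  have main : ∀ j, j < L → vv d c₀ c₀ j ≠ 0 := by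
    intro j hj h0
    have h1 : vv d c₀ c₀ (j + 1) = vv d c₀ c₀ 0 := by
      rw [vv_succ, h0, vv_zero, zero_pow (by omega), zero_add]
    have := h.inj (j + 1) (by omega) 0 (by omega) h1
    omega
  intro j hj h0
  rcases hj.lt_or_eq with h1 | h1
  · exact main j h1 h0
  · subst h1
    have h2 := h.opp
    rw [h0] at h2
    rcases mul_eq_zero.mp h2.symm with h3 | h3
    · have := h.root
      rw [h3, zero_pow (by omega)] at this
      exact zero_ne_one this
    · exact main k hlt h3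

/-! ### derivatives in the parameter -/

theorem hasDeriv_vv {d : ℕ} {u : ℂ → ℂ} {c : ℂ} (hu : DifferentiableAt ℂ u c) (n : ℕ) :
    DifferentiableAt ℂ (fun z => vv d z (u z) n) c := by
  induction n with
  | zero => simpa [vv_zero] using hu
  | succ n ih =>
    simp_rw [vv_succ]
    exact (ih.pow d).add differentiableAt_id

theorem deriv_vv_succ {d : ℕ} {u : ℂ → ℂ} {c : ℂ} (hu : DifferentiableAt ℂ u c) (n : ℕ) :
    deriv (fun z => vv d z (u z) (n + 1)) c =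
      AA d c (u c) n * deriv (fun z => vv d z (u z) n) c + 1 := by
  have h1 := (hasDeriv_vv (d := d) hu n).hasDerivAt
  have h2 : HasDerivAt (fun z => vv d z (u z) n ^ d + z)
      ((d : ℂ) * vv d c (u c) n ^ (d - 1) * deriv (fun z => vv d z (u z) n) c + 1) c :=
    (h1.fun_pow d).add (hasDerivAt_id c)
  simp_rw [vv_succ]
  exact h2.deriv

theorem iter_zero {d : ℕ} (hd : 2 ≤ d) (c : ℂ) (n : ℕ) : (f d c)^[n + 1] 0 = vv d c c n := by
  rw [Function.iterate_succ_apply]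
  unfold vv
  congr 1
  unfold f
  rw [zero_pow (by omega), zero_add]

theorem log_small {η : ℝ} (hη : 0 < η) :
    ∃ δ : ℝ, 0 < δ ∧ ∀ r : ℝ, 0 < r → r ≤ δ → r * (1 + |Real.log r|) ≤ η := by
  refine ⟨min 1 ((η / 3) ^ 2), by positivity, ?_⟩
  intro r hr hrδ
  have h1 : r ≤ 1 := hrδ.trans (min_le_left _ _)
  have h2 : r ≤ (η / 3) ^ 2 := hrδ.trans (min_le_right _ _)
  have h3 : Real.sqrt r ≤ η / 3 := by
    rw [Real.sqrt_le_left (by positivity)]; exact h2
  have h4 : 0 < Real.sqrt r := Real.sqrt_pos.mpr hr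
  have h5 : Real.sqrt r ≤ 1 := (Real.sqrt_le_sqrt h1).trans_eq Real.sqrt_one
  have h6 := Real.abs_log_mul_self_lt (Real.sqrt r) h4 h5
  rw [Real.log_sqrt hr.le, abs_mul, abs_div, abs_of_pos h4] at h6
  have h7 : Real.sqrt r * Real.sqrt r = r := Real.mul_self_sqrt hr.le
  have h8 : |(2 : ℝ)| = 2 := abs_of_pos two_pos
  rw [h8] at h6
  have h9 : |Real.log r| * Real.sqrt r < 2 := by linarith
  have h10 : r * |Real.log r| ≤ 2 * Real.sqrt r := by
    calc r * |Real.log r| = (|Real.log r| * Real.sqrt r) * Real.sqrt r := by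
          rw [mul_assoc, h7]; ring
      _ ≤ 2 * Real.sqrt r := mul_le_mul_of_nonneg_right h9.le h4.le
  have h11 : r ≤ Real.sqrt r := by nlinarith
  linarith

theorem big_deriv {d L k : ℕ} (hd : 2 ≤ d) {ω c₀ : ℂ} (h : Orb d L k ω c₀ c₀)
    (hmu : 1 < ‖∏ j ∈ Finset.Icc (k + 1) L, ((d : ℂ) * vv d c₀ c₀ j ^ (d - 1))‖)
    {ρ C : ℝ} (hρ : 0 < ρ) {v : ℂ → ℂ} (hv : DifferentiableOn ℂ v (ball c₀ ρ))
    (hvC : ∀ c ∈ ball c₀ ρ, ‖v c - c₀‖ ≤ C * ‖c - c₀‖ ∧ Orb d L k ω c (v c))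
    {m : ℕ} {κ ε : ℝ} (hκ : 0 < κ) (hε : 0 < ε) (hερ : ε ≤ ρ)
    (hord : ∀ c : ℂ, c ≠ c₀ → ‖c - c₀‖ < ε →
      κ * ‖c - c₀‖ ^ m ≤ ‖c - v c‖ ∧ ‖c - v c‖ ≤ 2 * (‖c - c₀‖ * ‖1 - deriv v c‖)) :
    ∃ κ' C' ε' : ℝ, 0 < κ' ∧ 0 < C' ∧ 0 < ε' ∧ ∀ c : ℂ, c ≠ c₀ → ‖c - c₀‖ ≤ ε' →
      ∃ i : ℕ, 1 ≤ i ∧ (i : ℝ) ≤ C' * (1 + |Real.log ‖c - c₀‖|) ∧
        κ' / ‖c - c₀‖ ≤ ‖deriv (fun c : ℂ => (f d c)^[i] 0) c‖ := by
  have hlt := h.lt
  set p := L - k with hp
  have hp0 : 0 < p := by omega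
  have hd0 : (d : ℂ) ≠ 0 := by exact_mod_cast (by omega : d ≠ 0)
  have hv0 : v c₀ = c₀ := by
    have := (hvC c₀ (mem_ball_self hρ)).1
    rw [sub_self, norm_zero, mul_zero] at this
    exact sub_eq_zero.1 (norm_eq_zero.1 (le_antisymm this (norm_nonneg _)))
  -- constants
  obtain ⟨jm, hjm, hmin⟩ := Finset.exists_min_image (Finset.range (L + 1)) (fun j => ‖AA d c₀ c₀ j‖) ⟨0, by simp⟩
  obtain ⟨jM, hjM, hmax⟩ := Finset.exists_max_image (Finset.range (L + 1)) (fun j => ‖AA d c₀ c₀ j‖) ⟨0, by simp⟩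
  obtain ⟨jv, hjv, hmaxv⟩ := Finset.exists_max_image (Finset.range (L + 1)) (fun j => ‖vv d c₀ c₀ j‖) ⟨0, by simp⟩
  obtain ⟨jd, hjd, hmaxd⟩ := Finset.exists_max_image (Finset.range (L + 1))
    (fun j => ‖deriv (fun z => vv d z (v z) j) c₀‖) ⟨0, by simp⟩
  have hm0 : 0 < ‖AA d c₀ c₀ jm‖ := by
    rw [norm_pos_iff]
    exact mul_ne_zero hd0 (pow_ne_zero _ (orb_ne hd h jm (by have := Finset.mem_range.1 hjm; omega)))
  set b : ℝ := min 1 (‖AA d c₀ c₀ jm‖ / 2) with hb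
  have hb0 : 0 < b := lt_min one_pos (by positivity)
  have hb1 : b ≤ 1 := min_le_left _ _
  set B : ℝ := ‖AA d c₀ c₀ jM‖ + 1 with hB
  have hB0 : 0 < B := by positivity
  set R : ℝ := ‖vv d c₀ c₀ jv‖ + 2 with hR
  have hR1 : 1 ≤ R := by rw [hR]; linarith [norm_nonneg (vv d c₀ c₀ jv)]
  set Bv : ℝ := ‖deriv (fun z => vv d z (v z) jd) c₀‖ + 1 with hBv
  have hBv0 : 0 < Bv := by positivity
  have hM := MM_pos hd hR1
  set Λ : ℝ := (1 + ‖∏ j ∈ Finset.Icc (k + 1) L, AA d c₀ c₀ j‖) / 2 with hΛ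
  have hmu' : 1 < ‖∏ j ∈ Finset.Icc (k + 1) L, AA d c₀ c₀ j‖ := hmu
  have hΛ1 : 1 < Λ := by rw [hΛ]; linarith
  have hΛ2 : Λ < ‖∏ j ∈ Finset.Icc (k + 1) L, AA d c₀ c₀ j‖ := by rw [hΛ]; linarith
  set τ : ℝ := Λ ^ ((p : ℝ)⁻¹) with hτ
  have hτ1 : 1 < τ := Real.one_lt_rpow hΛ1 (by positivity)
  have hτp : τ ^ p = Λ := Real.rpow_inv_natCast_pow (by linarith) hp0.ne'
  set a : ℝ := b ^ (k + 1 + p) / τ ^ (k + 1 + p) with ha
  have hτ0 : 0 < τ := by linarith
  have ha0 : 0 < a := by positivity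
  have hτ10 : 0 < τ - 1 := by linarith
  set t : ℝ := min (1 / 2) (b * (a * (τ - 1)) / (8 * MM d R)) with ht
  have ht0 : 0 < t := lt_min (by norm_num) (by positivity)
  have ht1 : 2 * t ≤ 1 := by
    have : t ≤ 1 / 2 := min_le_left _ _
    linarith
  have ht2 : 8 * MM d R * t ≤ b * (a * (τ - 1)) := by
    have h1 : t ≤ b * (a * (τ - 1)) / (8 * MM d R) := min_le_right _ _
    rw [le_div_iff₀ (by positivity)] at h1
    linarith
  have hlogτ : 0 < Real.log τ := Real.log_pos hτ1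
  -- regularity
  have hvd : ∀ c ∈ ball c₀ ρ, DifferentiableAt ℂ v c := fun c hc =>
    hv.differentiableAt (isOpen_ball.mem_nhds hc)
  have hvv : ∀ j, DifferentiableOn ℂ (fun z => vv d z (v z) j) (ball c₀ ρ) := fun j c hc =>
    (hasDeriv_vv (hvd c hc) j).differentiableWithinAt
  have hvvc : ∀ j, ContinuousAt (fun z => vv d z (v z) j) c₀ := fun j =>
    (hasDeriv_vv (hvd c₀ (mem_ball_self hρ)) j).continuousAt
  have hAAc : ∀ j, ContinuousAt (fun z => AA d z (v z) j) c₀ := fun j =>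
    continuousAt_const.mul ((hvvc j).pow (d - 1))
  have hdc : ∀ j, ContinuousAt (fun c => deriv (fun z => vv d z (v z) j) c) c₀ := fun j =>
    ((hvv j).analyticAt (ball_mem_nhds c₀ hρ)).deriv.continuousAt
  -- the neighbourhood
  have ev : ∀ᶠ c : ℂ in nhds c₀, (∀ j ∈ Finset.range (L + 1), b < ‖AA d c (v c) j‖ ∧
      ‖AA d c (v c) j‖ < B ∧ ‖vv d c (v c) j‖ < R - 1 ∧ ‖deriv (fun z => vv d z (v z) j) c‖ < Bv) ∧
      Λ < ‖∏ j ∈ Finset.Icc (k + 1) L, AA d c (v c) j‖ := by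
    apply Filter.Eventually.and
    · rw [Filter.eventually_all_finset]
      intro j hj
      have h1 : b < ‖AA d c₀ (v c₀) j‖ := by
        rw [hv0]
        have := hmin j hj
        have h2 : b ≤ ‖AA d c₀ c₀ jm‖ / 2 := min_le_right _ _
        linarith
      have h2 : ‖AA d c₀ (v c₀) j‖ < B := by
        rw [hv0]
        have := hmax j hj
        rw [hB]; linarith
      have h3 : ‖vv d c₀ (v c₀) j‖ < R - 1 := by
        rw [hv0]
        have := hmaxv j hj
        rw [hR]; linarith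
      have h4 : ‖deriv (fun z => vv d z (v z) j) c₀‖ < Bv := by
        have := hmaxd j hj
        rw [hBv]; linarith
      have e1 := (hAAc j).norm.eventually (lt_mem_nhds h1)
      have e2 := (hAAc j).norm.eventually (gt_mem_nhds h2)
      have e3 := (hvvc j).norm.eventually (gt_mem_nhds h3)
      have e4 := (hdc j).norm.eventually (gt_mem_nhds h4)
      filter_upwards [e1, e2, e3, e4] with c g1 g2 g3 g4
      exact ⟨g1, g2, g3, g4⟩
    · have hc : ContinuousAt (fun z => ‖∏ j ∈ Finset.Icc (k + 1) L, AA d z (v z) j‖) c₀ :=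
        (tendsto_finsetProd _ fun j _ => hAAc j).norm
      have h1 : Λ < ‖∏ j ∈ Finset.Icc (k + 1) L, AA d c₀ (v c₀) j‖ := by
        rw [hv0]; exact hΛ2
      exact hc.eventually (lt_mem_nhds h1)
  rw [Metric.eventually_nhds_iff] at ev
  obtain ⟨ε₁, hε₁, hev⟩ := ev
  set C₁ : ℝ := 4 * MM d R * Bv / b with hC₁
  have hC₁0 : 0 < C₁ := by positivity
  set C₃ : ℝ := (|Real.log (t / a)| + |Real.log κ| + m + 1) / Real.log τ with hC₃
  have hC₃0 : 0 < C₃ := by positivity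
  obtain ⟨δ, hδ, hδ'⟩ := log_small (η := 1 / (4 * C₁ * C₃)) (by positivity)
  refine ⟨t / (16 * B), C₃ + 1,
    min (min (ε₁ / 2) (ρ / 2)) (min (min (ε / 2) δ) (min (t / (1 + |C|)) (t / (16 * B * Bv)))),
    by positivity, by positivity, by positivity, ?_⟩
  intro c hne hc
  set r : ℝ := ‖c - c₀‖ with hr
  have hr0 : 0 < r := norm_pos_iff.mpr (sub_ne_zero.mpr hne)
  have r1 : r ≤ ε₁ / 2 := hc.trans ((min_le_left _ _).trans (min_le_left _ _))
  have r2 : r ≤ ρ / 2 := hc.trans ((min_le_left _ _).trans (min_le_right _ _))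
  have r3 : r ≤ ε / 2 := hc.trans ((min_le_right _ _).trans ((min_le_left _ _).trans (min_le_left _ _)))
  have r4 : r ≤ δ := hc.trans ((min_le_right _ _).trans ((min_le_left _ _).trans (min_le_right _ _)))
  have r5 : r ≤ t / (1 + |C|) :=
    hc.trans ((min_le_right _ _).trans ((min_le_right _ _).trans (min_le_left _ _)))
  have r6 : r ≤ t / (16 * B * Bv) :=
    hc.trans ((min_le_right _ _).trans ((min_le_right _ _).trans (min_le_right _ _)))
  have hcb : c ∈ ball c₀ ρ := by rw [mem_ball, dist_eq_norm]; linarith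
  obtain ⟨hq1, hq2⟩ := hev (y := c) (by rw [dist_eq_norm]; linarith)
  obtain ⟨ho1, ho⟩ := hvC c hcb
  obtain ⟨hs1, hs2⟩ := hord c hne (by linarith)
  set s : ℝ := ‖c - v c‖ with hs
  have hs0 : 0 < s := lt_of_lt_of_le (by positivity) hs1
  have hst : s ≤ t := by
    have h1 : s ≤ (1 + |C|) * r := by
      have e1 : c - v c = (c - c₀) - (v c - c₀) := by ring
      calc s = ‖(c - c₀) - (v c - c₀)‖ := by rw [hs, e1]
        _ ≤ ‖c - c₀‖ + ‖v c - c₀‖ := norm_sub_le _ _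
        _ ≤ r + C * r := by linarith
        _ ≤ (1 + |C|) * r := by nlinarith [le_abs_self C]
    rw [le_div_iff₀ (by positivity)] at r5
    linarith
  -- uniform bounds along the orbit
  have hx : ∀ j, b ≤ ‖AA d c (v c) j‖ := by
    intro j
    obtain ⟨i, hi1, hi2⟩ := orb_red (d := d) hlt (ω := ω) j
    have e1 : AA d c (v c) j = AA d c (v c) i := by unfold AA; rw [hi2 c (v c) ho]
    rw [e1]
    exact (hq1 i (Finset.mem_range.2 (by omega))).1.le
  have hxB : ∀ j, ‖AA d c (v c) j‖ ≤ B := by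
    intro j
    obtain ⟨i, hi1, hi2⟩ := orb_red (d := d) hlt (ω := ω) j
    have e1 : AA d c (v c) j = AA d c (v c) i := by unfold AA; rw [hi2 c (v c) ho]
    rw [e1]
    exact (hq1 i (Finset.mem_range.2 (by omega))).2.1.le
  have hxR : ∀ j, ‖vv d c (v c) j‖ ≤ R - 1 := by
    intro j
    obtain ⟨i, hi1, hi2⟩ := orb_red (d := d) hlt (ω := ω) j
    rw [hi2 c (v c) ho]
    exact (hq1 i (Finset.mem_range.2 (by omega))).2.2.1.le
  have hxV : ∀ j, ‖deriv (fun z => vv d z (v z) j) c‖ ≤ Bv := by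
    intro j
    obtain ⟨i, hi1, hi2⟩ := orb_red (d := d) hlt (ω := ω) j
    have e1 : (fun z => vv d z (v z) j) =ᶠ[nhds c] (fun z => vv d z (v z) i) := by
      filter_upwards [isOpen_ball.mem_nhds hcb] with z hz
      exact hi2 z (v z) (hvC z hz).2
    rw [e1.deriv_eq]
    exact (hq1 i (Finset.mem_range.2 (by omega))).2.2.2.le
  have hE : ∀ j m, a * τ ^ m ≤ ∏ i ∈ Finset.Ico j (j + m), ‖AA d c (v c) i‖ := by
    intro j m
    apply E_bound hb0 hb1 hx hp0 _ hτ1.le _ j m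
    · intro j hj
      unfold AA
      rw [orb_per ho j hj]
    · rw [hτp]
      have e1 : Finset.Ico (k + 1) (k + 1 + p) = Finset.Icc (k + 1) L := by
        ext i; rw [Finset.mem_Ico, Finset.mem_Icc]; omega
      rw [e1, ← norm_prod]
      exact hq2.le
  -- the derivative grows
  have hD0 : DP (AA d c (v c)) 0 = 1 := by unfold DP; simp
  have hgrow : ∀ n, a * τ ^ n ≤ ‖DP (AA d c (v c)) n‖ := by
    intro n
    have := DP_ratio hE (Nat.zero_le n)
    rw [hD0, norm_one, one_mul, Nat.sub_zero] at this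
    exact this
  have hex : ∃ n, t < ‖DP (AA d c (v c)) n‖ * s := by
    obtain ⟨n, hn⟩ := pow_unbounded_of_one_lt (t / (a * s)) hτ1
    refine ⟨n, ?_⟩
    rw [div_lt_iff₀ (by positivity)] at hn
    have := mul_le_mul_of_nonneg_right (hgrow n) hs0.le
    calc t < τ ^ n * (a * s) := hn
      _ = a * τ ^ n * s := by ring
      _ ≤ _ := this
  classical
  set N := Nat.find hex with hN
  have hN1 : t < ‖DP (AA d c (v c)) N‖ * s := Nat.find_spec hex
  have hN2 : ∀ j, j < N → ‖DP (AA d c (v c)) j‖ * s ≤ t := fun j hj => not_lt.1 (Nat.find_min hex hj)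
  have hN0 : N ≠ 0 := by
    intro h0
    rw [h0, hD0, norm_one, one_mul] at hN1
    linarith
  obtain ⟨n, hn⟩ := Nat.exists_eq_succ_of_ne_zero hN0
  have hrr : ∀ j, j ≤ n → ‖DP (AA d c (v c)) j‖ * s ≤ t := fun j hj => hN2 j (by omega)
  have hlow : t / B ≤ ‖DP (AA d c (v c)) n‖ * s := by
    rw [div_le_iff₀ hB0]
    rw [hn, DP_succ, norm_mul] at hN1
    calc t ≤ ‖DP (AA d c (v c)) n‖ * ‖AA d c (v c) n‖ * s := hN1.le
      _ ≤ ‖DP (AA d c (v c)) n‖ * B * s := by gcongr; exact hxB n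
      _ = ‖DP (AA d c (v c)) n‖ * s * B := by ring
  -- bound on n
  have hnb : (n : ℝ) ≤ C₃ * (1 + |Real.log r|) := by
    have h1 : a * τ ^ n ≤ t / s := by
      rw [le_div_iff₀ hs0]
      exact (mul_le_mul_of_nonneg_right (hgrow n) hs0.le).trans (hrr n le_rfl)
    have h2 : τ ^ n ≤ (t / a) / s := by
      rw [le_div_iff₀ hs0, le_div_iff₀ ha0]
      rw [le_div_iff₀ hs0] at h1
      linarith
    have h3 := Real.log_le_log (by positivity) h2
    rw [Real.log_pow, Real.log_div (by positivity) hs0.ne'] at h3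
    have h4 := le_abs_self (Real.log (t / a))
    have h5 := Real.log_le_log (by positivity) hs1
    rw [Real.log_mul hκ.ne' (by positivity), Real.log_pow] at h5
    have h6 := neg_abs_le (Real.log κ)
    have h7 := neg_abs_le (Real.log r)
    have h8 : -(m * |Real.log r|) ≤ m * Real.log r := by
      have := mul_le_mul_of_nonneg_left h7 (Nat.cast_nonneg m)
      linarith
    rw [hC₃, div_mul_eq_mul_div, le_div_iff₀ hlogτ]
    have h9 : (|Real.log (t / a)| + |Real.log κ| + m + 1) * (1 + |Real.log r|) =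
        (|Real.log (t / a)| + |Real.log κ| + m * |Real.log r|) +
          (m + 1 + (|Real.log (t / a)| + |Real.log κ| + 1) * |Real.log r|) := by ring
    have h10 : 0 ≤ m + 1 + (|Real.log (t / a)| + |Real.log κ| + 1) * |Real.log r| := by positivity
    rw [h9]
    linarith
  refine ⟨n + 1, by omega, ?_, ?_⟩
  · push_cast
    nlinarith [abs_nonneg (Real.log r)]
  · -- the main estimate
    have hfun : (fun z : ℂ => (f d z)^[n + 1] 0) = fun z => vv d z z n := by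
      funext z; exact iter_zero hd z n
    rw [hfun]
    have hrec := recur hd ha0 hτ1 hb0 hx hE hR1 hxR ht1 ht2 (le_refl s) hrr
      (X := fun j => deriv (fun z => vv d z z j) c) (V := fun j => deriv (fun z => vv d z (v z) j) c)
      hBv0.le hxV
      (fun j => deriv_vv_succ (d := d) (u := fun z => z) differentiableAt_id j)
      (fun j => deriv_vv_succ (d := d) (hvd c hcb) j) n le_rfl
    have hX0 : deriv (fun z => vv d z z 0) c = 1 := by
      simp_rw [vv_zero]; exact (hasDerivAt_id c).deriv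
    have hV0 : deriv (fun z => vv d z (v z) 0) c = deriv v c := by
      simp_rw [vv_zero]
    simp only [hX0, hV0] at hrec
    have hDw := closeD hd ha0 hτ1 hb0 hx hE hR1 hxR ht1 ht2 (le_refl s) hrr n le_rfl
    have hDl : ‖DP (AA d c (v c)) n‖ / 2 ≤ ‖DP (AA d c c) n‖ := by
      have h2 : ‖DP (AA d c (v c)) n‖ - ‖DP (AA d c c) n‖ ≤ ‖DP (AA d c (v c)) n‖ / 2 := by
        refine (norm_sub_norm_le _ _).trans ?_
        rw [norm_sub_rev]; exact hDw
      linarith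
    set Dw : ℝ := ‖DP (AA d c c) n‖ with hDw'
    have hDw0 : 0 ≤ Dw := norm_nonneg _
    set Xn : ℂ := deriv (fun z => vv d z z n) c with hXn
    set Vn : ℂ := deriv (fun z => vv d z (v z) n) c with hVn
    have hVn' : ‖Vn‖ ≤ Bv := hxV n
    have g1 : Dw * ‖1 - deriv v c‖ - ‖Xn - Vn‖ ≤ Dw * (C₁ * n * s) := by
      have k1 : ‖DP (AA d c c) n * (1 - deriv v c)‖ - ‖Xn - Vn‖ ≤
          ‖(Xn - Vn) - DP (AA d c c) n * (1 - deriv v c)‖ := by
        rw [norm_sub_rev (Xn - Vn)]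
        exact norm_sub_norm_le _ _
      rw [norm_mul] at k1
      exact k1.trans hrec
    have g2 : s / (2 * r) ≤ ‖1 - deriv v c‖ := by
      rw [div_le_iff₀ (by positivity)]
      linarith
    have g3 : C₁ * n ≤ 1 / (4 * r) := by
      have k1 := hδ' r hr0 r4
      rw [le_div_iff₀ (by positivity)] at k1
      rw [le_div_iff₀ (by positivity)]
      calc C₁ * n * (4 * r) ≤ C₁ * (C₃ * (1 + |Real.log r|)) * (4 * r) := by gcongr
        _ = r * (1 + |Real.log r|) * (4 * C₁ * C₃) := by ring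
        _ ≤ 1 := k1
    have g4 : Dw * s * (1 / (4 * r)) ≤ ‖Xn - Vn‖ := by
      have k1 : Dw * (s / (2 * r)) ≤ Dw * ‖1 - deriv v c‖ := mul_le_mul_of_nonneg_left g2 hDw0
      have k2 : Dw * (C₁ * n * s) ≤ Dw * ((1 / (4 * r)) * s) := by gcongr
      have k3 : Dw * (s / (2 * r)) - Dw * ((1 / (4 * r)) * s) = Dw * s * (1 / (4 * r)) := by
        field_simp; ring
      linarith
    have g5 : t / B / 2 ≤ Dw * s := by
      have k1 : ‖DP (AA d c (v c)) n‖ / 2 * s ≤ Dw * s := mul_le_mul_of_nonneg_right hDl hs0.le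
      linarith
    have g6 : t / (8 * B * r) ≤ ‖Xn - Vn‖ := by
      calc t / (8 * B * r) = t / B / 2 * (1 / (4 * r)) := by field_simp; norm_num
        _ ≤ Dw * s * (1 / (4 * r)) := mul_le_mul_of_nonneg_right g5 (by positivity)
        _ ≤ _ := g4
    have g7 : Bv ≤ t / (16 * B * r) := by
      rw [le_div_iff₀ (by positivity)] at r6 ⊢
      linarith
    have g8 : ‖Xn - Vn‖ ≤ ‖Xn‖ + ‖Vn‖ := norm_sub_le _ _
    have g9 : t / (8 * B * r) = t / (16 * B * r) + t / (16 * B * r) := by field_simp; norm_num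
    have g10 : t / (16 * B) / r = t / (16 * B * r) := by rw [div_div]
    rw [g10]
    linarith

end Pool.Agent.TH574.J2491
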